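import Pool.Agent.Helper90.MZ.StmtsZ

/-!
# MP_79eb7e_lc: module ORC (orthogonal classes are independent)
-/

set_option autoImplicit false

namespace Pool.Agent.Helper90.MZ

open Pool.Agent.Helper90.TS

theorem orc_cnt {V κ : Type} [Countable κ] (b : κ → Fin 1 → V) (K : Set κ) :
    (⋃ k ∈ K, Set.range (b k)).Countable :=
  Set.Countable.biUnion (Set.to_countable K) fun k _ => Set.countable_range (b k)

theorem st_ORC (h1 : ST_LOCK) (h2 : ST_RLB) (h3 : ST_IND) : ST_ORC := by
  intro V G _ _ X M Ξ q κ' _ ξ b hM hq hno hrl hcl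
  have hI := h3 V G X M hM
  have hMk : ∀ k, (q (ξ k)).A ∪ M = M := fun k =>
    Set.union_eq_self_of_subset_left (hq (ξ k)).2
  -- the step
  have step : ∀ (s : Finset κ'), (∀ I J : Set κ', I ⊆ s → J ⊆ s → Disjoint I J →
      SI X M (⋃ i ∈ I, Set.range (b i)) (⋃ j ∈ J, Set.range (b j))) → ∀ k ∉ s,
      SI X M (Set.range (b k)) (⋃ j ∈ (s : Set κ'), Set.range (b j)) := by
    intro s ih k hk
    set P : Set κ' := {i | i ∈ s ∧ ξ i = ξ k} with hP
    set R : Set κ' := {i | i ∈ s ∧ ξ i ≠ ξ k} with hR
    have e0 : (⋃ j ∈ (s : Set κ'), Set.range (b j)) =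
        (⋃ j ∈ P, Set.range (b j)) ∪ ⋃ j ∈ R, Set.range (b j) := by
      have e1 : (s : Set κ') = P ∪ R := by
        ext j
        constructor
        · intro h
          by_cases hx : ξ j = ξ k
          · exact Or.inl ⟨h, hx⟩
          · exact Or.inr ⟨h, hx⟩
        · rintro (h | h)
          · exact h.1
          · exact h.1
      rw [e1, Set.biUnion_union]
    have hPk : SI X M (Set.range (b k)) (⋃ j ∈ P, Set.range (b j)) := by
      have := hcl (ξ k) {⟨k, rfl⟩} {i | (i : κ') ∈ P} (by
        rw [Set.disjoint_singleton_left]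
        intro hh
        exact hk hh.1)
      have e1 : (⋃ i ∈ ({⟨k, rfl⟩} : Set {k' // ξ k' = ξ k}), Set.range (b i)) =
          Set.range (b k) := by
        rw [Set.biUnion_singleton]
      have e2 : (⋃ i ∈ {i : {k' // ξ k' = ξ k} | (i : κ') ∈ P}, Set.range (b i)) =
          ⋃ j ∈ P, Set.range (b j) := by
        ext x
        simp only [Set.mem_iUnion, Set.mem_ofPred_eq, exists_prop]
        constructor
        · rintro ⟨i, hi, hx⟩
          exact ⟨i, hi, hx⟩
        · rintro ⟨i, hi, hx⟩
          exact ⟨⟨i, hi.2⟩, hi, hx⟩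
      rw [e1, e2] at this
      exact this
    have r1 : Rl X (q (ξ k)) (M ∪ ⋃ j ∈ P, Set.range (b j)) (b k) := by
      refine (h2 V G X (q (ξ k)) (hq _).1 M hM).2.2.2.1 (b k) _ (orc_cnt b P) (hrl k) ?_
      rw [hMk]
      exact hPk
    have r2 : ∀ r ∈ R, Rl X (q (ξ r)) ((M ∪ ⋃ j ∈ P, Set.range (b j)) ∪
        ⋃ j ∈ R \ {r}, Set.range (b j)) (b r) := by
      intro r hr
      have a1 : SI X M (Set.range (b r)) ((⋃ j ∈ P, Set.range (b j)) ∪
        ⋃ j ∈ R \ {r}, Set.range (b j)) := by
        have := ih {r} (P ∪ (R \ {r})) (by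
          rintro _ rfl
          exact hr.1) (by
          rintro i (hi | hi)
          · exact hi.1
          · exact hi.1.1) (by
          rw [Set.disjoint_singleton_left]
          rintro (hh | hh)
          · exact hr.2 hh.2
          · exact hh.2 rfl)
        rw [Set.biUnion_singleton, Set.biUnion_union] at this
        exact this
      have a2 := (h2 V G X (q (ξ r)) (hq _).1 M hM).2.2.2.1 (b r) _
        ((orc_cnt b P).union (orc_cnt b (R \ {r}))) (hrl r) (by
          rw [hMk]
          exact a1)
      rw [← Set.union_assoc] at a2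
      exact a2
    have r3 := h1 V G X κ' (fun i => q (ξ i)) b R (M ∪ ⋃ j ∈ P, Set.range (b j)) (q (ξ k)) (b k)
      (hM.union (orc_cnt b P))
      (fun r hr => ⟨(hq _).1, (hq _).2.trans Set.subset_union_left, r2 r hr⟩) (hq _).1
      ((hq _).2.trans Set.subset_union_left) (fun r hr => hno _ _ fun h => hr.2 h.symm) r1
    rw [Set.union_assoc, ← e0] at r3
    have r4 := (h2 V G X (q (ξ k)) (hq _).1 M hM).2.2.2.2.1 (b k) _ (orc_cnt b _) r3
    rw [hMk] at r4
    exact r4
  have main : ∀ (s : Finset κ'), (∀ I J : Set κ', I ⊆ s → J ⊆ s → Disjoint I J →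
      SI X M (⋃ i ∈ I, Set.range (b i)) (⋃ j ∈ J, Set.range (b j))) := by
    classical
    intro s
    induction s using Finset.induction_on with
    | empty =>
      intro I J hI0 hJ0 _
      have : I = ∅ := by
        rw [Finset.coe_empty, Set.subset_empty_iff] at hI0
        exact hI0
      rw [this, Set.biUnion_empty]
      exact si_empty_left
    | insert k s hk ih =>
      have st := step s ih k hk
      -- one side contains k
      have one : ∀ I J : Set κ', I ⊆ s → J ⊆ s → Disjoint I J →
          SI X M (Set.range (b k) ∪ ⋃ i ∈ I, Set.range (b i)) (⋃ j ∈ J, Set.range (b j)) := by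
        intro I J hI0 hJ0 hd
        rw [Set.union_comm]
        rw [si_unionl hM (orc_cnt b I) (orc_cnt b J) (Set.countable_range _)]
        refine ⟨ih I J hI0 hJ0 hd, ?_⟩
        have a1 : SI X M (Set.range (b k)) ((⋃ i ∈ I, Set.range (b i)) ∪
            ⋃ j ∈ J, Set.range (b j)) := by
          refine si_right hM (Set.countable_range _) (orc_cnt b _) ?_ st
          rw [← Set.biUnion_union]
          exact Set.biUnion_subset_biUnion_left (Set.union_subset hI0 hJ0)
        exact ((si_union hM (Set.countable_range _) (orc_cnt b I) (orc_cnt b J)).1 a1).2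
      intro I J hI0 hJ0 hd
      have dec : ∀ I : Set κ', I ⊆ ((insert k s : Finset κ') : Set κ') → I \ {k} ⊆ s := by
        intro I hI i hi
        have := hI hi.1
        rw [Finset.coe_insert] at this
        rcases this with h | h
        · exact absurd h hi.2
        · exact h
      have dec2 : ∀ I : Set κ', k ∈ I → (⋃ i ∈ I, Set.range (b i)) =
          Set.range (b k) ∪ ⋃ i ∈ I \ {k}, Set.range (b i) := by
        intro I hk
        rw [← Set.biUnion_insert k (I \ {k}) (fun i => Set.range (b i)), Set.insert_sdiff_singleton,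
          Set.insert_eq_of_mem hk]
      have dec3 : ∀ I : Set κ', k ∉ I → I \ {k} = I := fun I hk => Set.sdiff_singleton_eq_self hk
      by_cases hkI : k ∈ I
      · have hkJ : k ∉ J := fun h => Set.disjoint_left.1 hd hkI h
        have hJ1 := dec J hJ0
        rw [dec3 J hkJ] at hJ1
        rw [dec2 I hkI]
        exact one _ _ (dec I hI0) hJ1 (hd.mono_left Set.sdiff_subset)
      · have hI1 := dec I hI0
        rw [dec3 I hkI] at hI1
        by_cases hkJ : k ∈ J
        · rw [dec2 J hkJ]
          refine si_symm hM ((Set.countable_range _).union (orc_cnt b _)) (orc_cnt b _) ?_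
          exact one _ _ (dec J hJ0) hI1 (hd.symm.mono_left Set.sdiff_subset)
        · have hJ1 := dec J hJ0
          rw [dec3 J hkJ] at hJ1
          exact ih I J hI1 hJ1 hd
  refine hI.2.2.2.2.2.2.2.2 κ' (fun k => Set.range (b k)) (fun k => Set.countable_range _) ?_
  intro s I J hd
  have := main s (Subtype.val '' I) (Subtype.val '' J) (by
    rintro _ ⟨i, _, rfl⟩
    exact i.2) (by
    rintro _ ⟨i, _, rfl⟩
    exact i.2) ((Set.disjoint_image_iff Subtype.val_injective).2 hd)
  rw [Set.biUnion_image, Set.biUnion_image] at this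
  exact this

end Pool.Agent.Helper90.MZ
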