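import Pool.Agent.Helper90.MZ.StmtsZ

/-!
# MP_79eb7e_lc: module ZCD (the classes of level zero)
-/

set_option autoImplicit false

namespace Pool.Agent.Helper90.MZ

open Pool.Agent.Helper90.TS

/-- a finite transversal exists if there is no infinite sequence of inequivalent elements -/
theorem zcd_fin {α : Type} (P : α → Prop) (E : α → α → Prop)
    (hs : ∀ x y, E x y → E y x)
    (ht : ∀ x y z, P x → P y → P z → E x y → E y z → E x z)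
    (h : ¬ ∃ f : ℕ → α, (∀ n, P (f n)) ∧ ∀ m n, m ≠ n → ¬ E (f m) (f n)) :
    ∃ (m : ℕ) (q : Fin m → α), (∀ j, P (q j)) ∧ (∀ i j, i ≠ j → ¬ E (q i) (q j)) ∧
      ∀ r, P r → ∃ j, E r (q j) := by
  classical
  have h1 : ∃ s : Finset α, (∀ x ∈ s, P x) ∧ ∀ y, P y → ∃ x ∈ s, E x y := by
    by_contra hc
    push Not at hc
    obtain ⟨f, hf, hf'⟩ := exists_seq_of_forall_finset_exists P (fun x y => ¬ E x y) hc
    refine h ⟨f, hf, fun m n hmn => ?_⟩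
    rcases lt_or_gt_of_ne hmn with h' | h'
    · exact hf' m n h'
    · exact fun h2 => hf' n m h' (hs _ _ h2)
  have h2 : ∃ k, ∃ s : Finset α, s.card = k ∧ (∀ x ∈ s, P x) ∧ ∀ y, P y → ∃ x ∈ s, E x y := by
    obtain ⟨s, hs1, hs2⟩ := h1
    exact ⟨s.card, s, rfl, hs1, hs2⟩
  obtain ⟨s, hsc, hsP, hsE⟩ := Nat.find_spec h2
  have hmin := fun k (hk : k < Nat.find h2) => Nat.find_min h2 hk
  rw [← hsc] at hmin
  have h3 : ∀ x ∈ s, ∀ y ∈ s, x ≠ y → ¬ E x y := by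
    intro x hx y hy hxy hE
    refine hmin (s.erase y).card (Finset.card_erase_lt_of_mem hy) ⟨s.erase y, rfl,
      fun z hz => hsP z (Finset.mem_of_mem_erase hz), fun w hw => ?_⟩
    obtain ⟨z, hz, hzw⟩ := hsE w hw
    by_cases hzy : z = y
    · refine ⟨x, Finset.mem_erase.2 ⟨hxy, hx⟩, ?_⟩
      rw [hzy] at hzw
      exact ht x y w (hsP x hx) (hsP y hy) hw hE hzw
    · exact ⟨z, Finset.mem_erase.2 ⟨hzy, hz⟩, hzw⟩
  refine ⟨s.card, fun j => (s.equivFin.symm j : α), fun j => hsP _ (s.equivFin.symm j).2, ?_, ?_⟩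
  · intro i j hij
    refine h3 _ (s.equivFin.symm i).2 _ (s.equivFin.symm j).2 fun hh => hij ?_
    exact s.equivFin.symm.injective (Subtype.ext hh)
  · intro r hrP
    obtain ⟨x, hx, hxr⟩ := hsE r hrP
    refine ⟨s.equivFin ⟨x, hx⟩, ?_⟩
    show E r (s.equivFin.symm (s.equivFin ⟨x, hx⟩) : α)
    rw [Equiv.symm_apply_apply]
    exact hs _ _ hxr

theorem st_ZCD (h1 : ST_LFN) (h2 : ST_STN) (h3 : ST_ENIU) (h4 : ST_SUPU) (h5 : ST_PRIM)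
    (h6 : ST_ATMB) (h7 : ST_MDLB) (h8 : ST_NOEQ) (h9 : ST_RLB) : ST_ZCD := by
  intro V G _ _ X a hF ha
  obtain ⟨n1, n2, n3⟩ := h8 V G X
  obtain ⟨u1, u2, u3, u4, u5, u6, u7, u8⟩ := h4 V G X
  obtain ⟨s1, s2, s3, s4, s5, s6, s7⟩ := h2 V G X
  obtain ⟨m1, m2, m3, m4, m5, m6, m7⟩ := h7 V G X
  obtain ⟨m, r, hr1, hr2, hr3⟩ := zcd_fin (fun q : Ty V => ENI X q ∧ Sup X a q)
    (fun p q => NO X p q) n2
    (fun x y z hx hy hz => n3 x y z hx.1.1 hy.1.1 hz.1.1) (h1 V G X a hF ha)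
  -- the atomic model
  obtain ⟨N, hN, haN, _⟩ := m2 a ∅ a le_rfl ha.countable Set.countable_empty si_empty_right
  obtain ⟨Ma, hMaN, hMa⟩ := h5 V G X a N hN haN
  -- the types over Ma
  have hq : ∀ j, ∃ q : Ty V, EN0 X q ∧ q.A ⊆ Ma ∧ NO X q (r j) := by
    intro j
    obtain ⟨p, p1, p2, p3, p4, p5⟩ := u6 Ma (r j) (hr1 j).1.1 ((hr1 j).2 Ma hMa.1 hMa.2.1)
    obtain ⟨-, -, e3, -, -⟩ := h3 V G X p
    have hp : ENI X p := (h3 V G X (r j)).2.2.2.1 (hr1 j).1 p p1 p3 p5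
    obtain ⟨F, f1, f2, f3, f4⟩ := e3 hp Ma hMa.1 p2
    obtain ⟨y, hy⟩ := (h9 V G X p p1 F f1.countable).1
    obtain ⟨g1, g2⟩ := f4 y hy
    exact ⟨⟨F, p.D, y⟩, g1, f3, n3 _ _ _ g1.1 p1 (hr1 j).1.1 g2 p4⟩
  choose q hq1 hq2 hq3 using hq
  have hu : (⋃ j, (q j).A).Finite := Set.finite_iUnion fun j => (hq1 j).2.1
  obtain ⟨e, he, hef, heS⟩ := s7 a _ ha.countable hu
  have heM : e ⊆ Ma := by
    refine he.trans ?_
    have := (a_aclb V G X a ha.countable).2.2.1 Ma hMa.2.1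
    rw [m3 Ma hMa.1] at this
    exact this
  have hat : Atm X (a ∪ e) Ma := (h6 V G X a Ma).1 hMa e heM hef
  have hSup : ∀ j, Sup X a (q j) := fun j =>
    u4 a (r j) (q j) (hr1 j).1.1 (hq1 j).1 (n2 _ _ (hq3 j)) (hr1 j).2
  refine ⟨e, he, hef, m, q, fun j => ⟨hq1 j, u2 a _ _ Set.subset_union_left (hSup j), ?_, ?_⟩,
    ?_, ?_⟩
  · exact s2 _ _ _ (ha.union hef).countable hu.countable (Set.subset_iUnion (fun j => (q j).A) j)
      heS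
  · intro n g hg
    exact hat.2.2 n g (hg.trans (hq2 j))
  · intro i j hij hno
    refine hr2 i j hij ?_
    have t1 := n3 _ _ _ (hr1 i).1.1 (hq1 i).1 (hq1 j).1 (n2 _ _ (hq3 i)) hno
    exact n3 _ _ _ (hr1 i).1.1 (hq1 j).1 (hr1 j).1.1 t1 (hq3 j)
  · intro p hp hs
    obtain ⟨j, hj⟩ := hr3 p ⟨hp, u8 a e p ha.countable he hs⟩
    exact ⟨j, n3 _ _ _ hp.1 (hr1 j).1.1 (hq1 j).1 hj (n2 _ _ (hq3 j))⟩

end Pool.Agent.Helper90.MZ
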